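import Pool.Agent.H.MP_ac1762_co.Snd

set_option autoImplicit false

namespace Pool.Agent.H.MP_ac1762_co
open Pool.Agent.Lib.helper1.Cfg

variable {n : ℕ} {V : Type} [AddCommGroup V] [Module ℝ V]
variable {I : Fin n → Fin n → Prop} {P : Fin n → V} {L : Fin n → AffineSubspace ℝ V}
  {φ : ℕ → Fin n} {k : ℕ} {S : List T}

theorem upd (hφ : Set.InjOn φ (Set.Iio k)) {x : Fin n} (hx : ∀ q < k, φ q ≠ x) :
    Set.InjOn (Function.update φ k x) (Set.Iio (k + 1)) := by
  intro i hi j hj e
  simp only [Set.mem_Iio] at hi hj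
  by_cases h1 : i = k <;> by_cases h2 : j = k
  · rw [h1, h2]
  · rw [h1, Function.update_self, Function.update_of_ne h2] at e
    exact absurd e.symm (hx j (by omega))
  · rw [h2, Function.update_self, Function.update_of_ne h1] at e
    exact absurd e (hx i (by omega))
  · rw [Function.update_of_ne h1, Function.update_of_ne h2] at e
    exact hφ (show i < k by omega) (show j < k by omega) e

theorem pair (hφ : Set.InjOn φ (Set.Iio k)) {x y : Fin n} (hxy : x ≠ y) :
    ∃ (q r : ℕ) (ψ : ℕ → Fin n), q < r ∧ r < k + 2 ∧ (r < k + 1 ∨ q = k) ∧ (∀ i < k, ψ i = φ i) ∧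
      Set.InjOn ψ (Set.Iio (max k (r + 1))) ∧ ((ψ q = x ∧ ψ r = y) ∨ (ψ q = y ∧ ψ r = x)) := by
  by_cases hx : ∃ q < k, φ q = x <;> by_cases hy : ∃ r < k, φ r = y
  · obtain ⟨q, hq, ex⟩ := hx
    obtain ⟨r, hr, ey⟩ := hy
    rcases lt_trichotomy q r with h | h | h
    · exact ⟨q, r, φ, h, by omega, by omega, fun _ _ => rfl,
        by rwa [max_eq_left (by omega)], Or.inl ⟨ex, ey⟩⟩
    · exact absurd (by rw [← ex, ← ey, h]) hxy
    · exact ⟨r, q, φ, h, by omega, by omega, fun _ _ => rfl,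
        by rwa [max_eq_left (by omega)], Or.inr ⟨ey, ex⟩⟩
  · obtain ⟨q, hq, ex⟩ := hx
    push Not at hy
    refine ⟨q, k, Function.update φ k y, hq, by omega, by omega,
      fun i hi => Function.update_of_ne hi.ne _ _, ?_, Or.inl ⟨?_, by simp⟩⟩
    · rw [max_eq_right (by omega)]
      exact upd hφ hy
    · rw [Function.update_of_ne hq.ne, ex]
  · obtain ⟨q, hq, ey⟩ := hy
    push Not at hx
    refine ⟨q, k, Function.update φ k x, hq, by omega, by omega,
      fun i hi => Function.update_of_ne hi.ne _ _, ?_, Or.inr ⟨?_, by simp⟩⟩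
    · rw [max_eq_right (by omega)]
      exact upd hφ hx
    · rw [Function.update_of_ne hq.ne, ey]
  · push Not at hx hy
    refine ⟨k, k + 1, Function.update (Function.update φ k x) (k + 1) y, by omega, by omega,
      Or.inr rfl, fun i hi => ?_, ?_, Or.inl ⟨?_, by simp⟩⟩
    · rw [Function.update_of_ne (by omega), Function.update_of_ne hi.ne]
    · rw [max_eq_right (by omega)]
      refine upd (upd hφ hx) fun q hq => ?_
      by_cases h : q = k
      · rw [h, Function.update_self]
        exact hxy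
      · rw [Function.update_of_ne h]
        exact hy q (by omega)
    · rw [Function.update_of_ne (by omega), Function.update_self]

theorem inj_le (hφ : Set.InjOn φ (Set.Iio k)) : k ≤ n := by
  have := Set.ncard_le_ncard_of_injOn φ (t := Set.univ) (fun _ _ => trivial) hφ (Set.toFinite _)
  rwa [Set.ncard_univ, Nat.card_eq_fintype_card, Fintype.card_fin, ← Finset.coe_range,
    Set.ncard_coe_finset, Finset.card_range] at this

theorem mem_pairs {q r : ℕ} (h1 : q < r) (h2 : r < k + 2) (h3 : r < k + 1 ∨ q = k) :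
    (q, r) ∈ pairs k := by
  simp only [pairs, List.mem_flatMap, List.mem_range, List.mem_map, List.mem_filter,
    Bool.and_eq_true, decide_eq_true_eq, Bool.or_eq_true, beq_iff_eq]
  exact ⟨q, by omega, r, ⟨h2, h1, h3⟩, rfl⟩

theorem loop_spec {i p : ℕ} : ∀ (xs : List (ℕ × ℕ)) (cs : List ℕ), loop i k S p xs cs = true →
    ∀ x ∈ xs, skip S p x.1 x.2 = true ∨
      ∃ c, just i (max k (x.2 + 1)) ((p, x.1, x.2) :: S) c = true
  | [], _, _, _, hx => by simp at hx
  | y :: xs, cs, h, x, hx => by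
    unfold loop at h
    cases hb : skip S p y.1 y.2
    · rw [hb] at h
      simp only [cond_false, Bool.and_eq_true] at h
      rcases List.mem_cons.1 hx with rfl | hx
      · exact Or.inr ⟨_, h.1⟩
      · exact loop_spec xs _ h.2 x hx
    · rw [hb] at h
      rcases List.mem_cons.1 hx with rfl | hx
      · exact Or.inl hb
      · exact loop_spec xs _ h x hx

theorem lin_spec : ∀ (S : List T), lin S = true →
    S.Pairwise fun t u => ¬ (mem u.1 t = true ∧ mem u.2.1 t = true ∧ mem u.2.2 t = true)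
  | [], _ => List.Pairwise.nil
  | t :: S, h => by
    simp only [lin, Bool.and_eq_true, List.all_eq_true] at h
    refine List.Pairwise.cons (fun u hu hm => ?_) (lin_spec S h.2)
    have := h.1 u hu
    simp [hm.1, hm.2.1, hm.2.2] at this

theorem Ctx.sat (C : Ctx I P L) (hφ : Set.InjOn φ (Set.Iio k)) (w : ∀ t ∈ S, WF k t)
    (hl : lin S = true) (ℓ : T → Fin n) (o : ∀ t ∈ S, On I φ t (ℓ t)) {q : ℕ}
    (hq : 3 ≤ deg S q) {l : Fin n} (h : I (φ q) l) : ∃ t ∈ S, l = ℓ t := by
  have nd : ((S.filter (mem q)).map ℓ).Nodup := by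
    rw [List.Nodup, List.pairwise_map]
    refine List.Pairwise.imp_of_mem (fun {t u} ht hu H e => H ?_) ((lin_spec S hl).filter _)
    have ht' := (List.mem_filter.1 ht).1
    have hu' := (List.mem_filter.1 hu).1
    have ou := o u hu'
    rw [← e] at ou
    have wu := w u hu'
    exact ⟨C.onl hφ (w t ht') (o t ht') wu.1 ou.1, C.onl hφ (w t ht') (o t ht') wu.2.1 ou.2.1,
      C.onl hφ (w t ht') (o t ht') wu.2.2.1 ou.2.2⟩
  have e : (((S.filter (mem q)).map ℓ).toFinset : Set (Fin n)) = {l | I (φ q) l} := by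
    apply Set.eq_of_subset_of_ncard_le
    · intro x hx
      simp only [List.coe_toFinset, List.mem_map, List.mem_filter, Set.mem_ofPred_eq] at hx
      obtain ⟨t, ⟨ht, hm⟩, rfl⟩ := hx
      exact (o t ht).of_mem hm
    · rw [C.lp, Set.ncard_coe_finset, List.toFinset_card_of_nodup nd, List.length_map,
        ← List.countP_eq_length_filter]
      exact hq
    · exact Set.toFinite _
  have : l ∈ (((S.filter (mem q)).map ℓ).toFinset : Set (Fin n)) := e ▸ h
  simp only [List.coe_toFinset, List.mem_map, List.mem_filter, Set.mem_ofPred_eq] at this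
  obtain ⟨t, ⟨ht, _⟩, rfl⟩ := this
  exact ⟨t, ht, rfl⟩

theorem Ctx.free (C : Ctx I P L) (ℓ : T → Fin n) {p : ℕ} (hp : deg S p < 3) :
    ∃ l, I (φ p) l ∧ ∀ t ∈ S, mem p t = true → l ≠ ℓ t := by
  by_contra H
  push Not at H
  have : {l | I (φ p) l} ⊆ (((S.filter (mem p)).map ℓ).toFinset : Set (Fin n)) := by
    intro l hl
    obtain ⟨t, ht, hm, e⟩ := H l hl
    simp only [List.coe_toFinset, List.mem_map, List.mem_filter, Set.mem_ofPred_eq]
    exact ⟨t, ⟨ht, hm⟩, e.symm⟩
  have h := Set.ncard_le_ncard this (Set.toFinite _)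
  rw [C.lp, Set.ncard_coe_finset] at h
  have h2 := List.toFinset_card_le ((S.filter (mem p)).map ℓ)
  rw [List.length_map, ← List.countP_eq_length_filter] at h2
  unfold deg at hp
  omega

theorem Ctx.others (C : Ctx I P L) {x l : Fin n} (h : I x l) :
    ∃ y z, y ≠ z ∧ y ≠ x ∧ z ≠ x ∧ I y l ∧ I z l := by
  obtain ⟨a, b, c, ab, ac, bc, e⟩ := Set.ncard_eq_three.1 (C.pl l)
  have ha : I a l := by have : a ∈ {p | I p l} := by rw [e]; simp
                        exact this
  have hb : I b l := by have : b ∈ {p | I p l} := by rw [e]; simp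
                        exact this
  have hc : I c l := by have : c ∈ {p | I p l} := by rw [e]; simp
                        exact this
  have hx : x ∈ ({a, b, c} : Set (Fin n)) := e ▸ h
  rcases hx with rfl | rfl | rfl
  exacts [⟨b, c, bc, ab.symm, ac.symm, hb, hc⟩, ⟨a, c, ac, ab, bc.symm, ha, hc⟩,
    ⟨a, b, ab, ac, bc, ha, hb⟩]

theorem Ctx.branch (C : Ctx I P L) (B : Big P) (hn : n ≤ 14) {i p : ℕ} {cs : List ℕ}
    (ih : ∀ j < i, Good I (nk j) (nS j)) (w : ∀ t ∈ S, WF k t) (hl : lin S = true) (hp : p < k)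
    (hd : deg S p < 3) (h : loop i k S p (pairs k) cs = true) : Good I k S := by
  rintro φ ⟨hφ, E⟩
  have : Nonempty (Fin n) := ⟨φ 0⟩
  choose! ℓ o using E
  obtain ⟨l, lp, hl'⟩ := C.free (φ := φ) ℓ hd
  have nl : ∀ t ∈ S, l ≠ ℓ t := fun t ht e =>
    hl' t ht (C.onl hφ (w t ht) (o t ht) hp (e ▸ lp)) e
  obtain ⟨x, y, xy, xp, yp, xl, yl⟩ := C.others lp
  obtain ⟨q, r, ψ, qr, rk, hr, ag, hψ, e⟩ := pair hφ xy
  have ql : I (ψ q) l := by rcases e with ⟨e, _⟩ | ⟨e, _⟩ <;> rw [e] <;> assumption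
  have rl : I (ψ r) l := by rcases e with ⟨_, e⟩ | ⟨_, e⟩ <;> rw [e] <;> assumption
  have qp : ψ q ≠ φ p := by rcases e with ⟨e, _⟩ | ⟨e, _⟩ <;> rw [e] <;> assumption
  have rp : ψ r ≠ φ p := by rcases e with ⟨_, e⟩ | ⟨_, e⟩ <;> rw [e] <;> assumption
  have qp' : q ≠ p := fun e => qp (by rw [e, ag p hp])
  have rp' : r ≠ p := fun e => rp (by rw [e, ag p hp])
  have pl : I (ψ p) l := by rw [ag p hp]; exact lp
  have nc : ∀ a b, a ≠ b → I (ψ a) l → I (ψ b) l → col S a b = true → False := by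
    intro a b ab al bl hc
    simp only [col, List.any_eq_true, Bool.and_eq_true] at hc
    obtain ⟨t, ht, ma, mb⟩ := hc
    have ak := (w t ht).lt ma
    have bk := (w t ht).lt mb
    rw [ag a ak] at al
    rw [ag b bk] at bl
    exact nl t ht (C.same (fun e => ab (hφ ak bk e)) al bl ((o t ht).of_mem ma)
      ((o t ht).of_mem mb))
  have ns : ∀ a, I (ψ a) l → 3 ≤ deg S a → False := by
    intro a al ha
    have ak : a < k := by
      have : 0 < S.countP (mem a) := by unfold deg at ha; omega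
      obtain ⟨t, ht, ma⟩ := List.countP_pos_iff.1 this
      exact (w t ht).lt ma
    rw [ag a ak] at al
    obtain ⟨t, ht, e⟩ := C.sat hφ w hl ℓ o ha al
    exact nl t ht e
  rcases loop_spec _ _ h (q, r) (mem_pairs qr rk hr) with hs | ⟨c, hc⟩
  · simp only [skip, Bool.or_eq_true, beq_iff_eq, decide_eq_true_eq] at hs
    rcases hs with ((((((hs | hs) | hs) | hs) | hs) | hs) | hs) | hs
    · exact qp' hs
    · exact rp' hs
    · have := inj_le hψ
      omega
    · exact nc p q qp'.symm pl ql hs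
    · exact nc p r rp'.symm pl rl hs
    · exact nc q r qr.ne ql rl hs
    · exact ns q ql hs
    · exact ns r rl hs
  · refine C.just_good B hn ih (fun t ht => ?_) hc ψ ⟨hψ, fun t ht => ?_⟩
    · rcases List.mem_cons.1 ht with rfl | ht
      · exact ⟨by simp; omega, by simp; omega, by simp, qp'.symm, rp'.symm, qr.ne⟩
      · obtain ⟨a, b, c, d⟩ := w t ht
        exact ⟨by omega, by omega, by omega, d⟩
    · rcases List.mem_cons.1 ht with rfl | ht
      · exact ⟨l, pl, ql, rl⟩
      · obtain ⟨a, b, c, -⟩ := w t ht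
        refine ⟨ℓ t, ?_, ?_, ?_⟩
        · rw [ag _ a]; exact (o t ht).1
        · rw [ag _ b]; exact (o t ht).2.1
        · rw [ag _ c]; exact (o t ht).2.2

theorem Ctx.ext (C : Ctx I P L) (B : Big P) (hn : n ≤ 14) {i c c' : ℕ}
    (ih : ∀ j < i, Good I (nk j) (nS j)) (w : ∀ t ∈ S, WF k t)
    (h1 : low k S c (k - 3) = true) (h2 : just i (k + 1) S c' = true) : Good I k S := by
  rintro φ E
  have h := C.low_le B E w h1
  have hx : ∃ x, ∀ q < k, φ q ≠ x := by
    by_contra H
    push Not at H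
    have : (Set.univ : Set (Fin n)) ⊆ φ '' Set.Iio k := fun x _ => H x
    have h3 := (Set.ncard_le_ncard this (Set.toFinite _)).trans
      (Set.ncard_image_le (Set.finite_Iio k))
    rw [Set.ncard_univ, Nat.card_eq_fintype_card, Fintype.card_fin, ← Finset.coe_range,
      Set.ncard_coe_finset, Finset.card_range] at h3
    omega
  obtain ⟨x, hx⟩ := hx
  refine C.just_good B hn ih (fun t ht => ?_) h2 _ ⟨upd E.1 hx, fun t ht => ?_⟩
  · obtain ⟨a, b, c, d⟩ := w t ht
    exact ⟨by omega, by omega, by omega, d⟩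
  · obtain ⟨a, b, c, -⟩ := w t ht
    obtain ⟨l, o⟩ := E.2 t ht
    refine ⟨l, ?_, ?_, ?_⟩
    · rw [Function.update_of_ne a.ne]; exact o.1
    · rw [Function.update_of_ne b.ne]; exact o.2.1
    · rw [Function.update_of_ne c.ne]; exact o.2.2

theorem Ctx.chk_good (C : Ctx I P L) (B : Big P) (hn : n ≤ 14) {i : ℕ}
    (ih : ∀ j < i, Good I (nk j) (nS j)) (h : chk i = true) : Good I (nk i) (nS i) := by
  unfold chk at h
  cases hb : (node i).getD 3 0 == 0
  · rw [hb] at h
    simp only [cond_false, Bool.and_eq_true] at h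
    exact C.ext B hn ih (wf_iff h.1.1) h.2.1 h.2.2
  · rw [hb] at h
    simp only [cond_true, Bool.and_eq_true, decide_eq_true_eq] at h
    exact C.branch B hn ih (wf_iff h.1.1) h.1.2 h.2.1.1 h.2.1.2 h.2.2

end Pool.Agent.H.MP_ac1762_co
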