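import Pool.Agent.H.MP_ac1762_co.Chk

set_option autoImplicit false

namespace Pool.Agent.H.MP_ac1762_co

theorem c2 : (List.range' 86 85).all chk = true := by decide +kernel

end Pool.Agent.H.MP_ac1762_co
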