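import Pool.Agent.H.MP_ac1762_co.Data

set_option autoImplicit false

namespace Pool.Agent.H.MP_ac1762_co

abbrev T := ℕ × ℕ × ℕ

def dg (c i : ℕ) : ℕ := (c >>> (4 * i)) % 16

def dec (len c : ℕ) : List T :=
  (List.range len).map fun i => (dg c (3 * i), dg c (3 * i + 1), dg c (3 * i + 2))

def mem (i : ℕ) (t : T) : Bool := i == t.1 || i == t.2.1 || i == t.2.2

def wf (k : ℕ) (S : List T) : Bool :=
  S.all fun t => decide (t.1 < k) && decide (t.2.1 < k) && decide (t.2.2 < k) &&
    t.1 != t.2.1 && t.1 != t.2.2 && t.2.1 != t.2.2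

def lin : List T → Bool
  | [] => true
  | t :: S => S.all (fun u => !(mem u.1 t && mem u.2.1 t && mem u.2.2 t)) && lin S

def col (S : List T) (a b : ℕ) : Bool := S.any fun t => mem a t && mem b t

def deg (S : List T) (a : ℕ) : ℕ := S.countP (mem a)

def msk (a b c : ℕ) : ℕ := 2 ^ a ||| 2 ^ b ||| 2 ^ c

def step (m : ℕ) (t : T) : ℕ :=
  bif (m.testBit t.1 && m.testBit t.2.1) || (m.testBit t.1 && m.testBit t.2.2) ||
    (m.testBit t.2.1 && m.testBit t.2.2) then m ||| msk t.1 t.2.1 t.2.2 else m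

def clo (S : List T) : ℕ → ℕ → ℕ
  | 0, m => m
  | n + 1, m => clo S n (S.foldl step m)

def cnt (k m : ℕ) : ℕ := (List.range k).countP m.testBit

def low (k : ℕ) (S : List T) (c need : ℕ) : Bool :=
  let m1 := clo S (dg c 8) (msk (dg c 0) (dg c 1) (dg c 2))
  let m2 := clo S (dg c 8) (msk (dg c 3) (dg c 4) (dg c 5))
  decide (dg c 6 < k) && decide (dg c 7 < k) && dg c 6 != dg c 7 &&
    m1.testBit (dg c 6) && m1.testBit (dg c 7) && m2.testBit (dg c 6) && m2.testBit (dg c 7) &&
    decide (need ≤ cnt k (clo S (dg c 9) (m1 ||| m2)))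

def node (j : ℕ) : List ℕ := (dat.getD (j / 20) []).getD (j % 20) []

def nk (j : ℕ) : ℕ := (node j).getD 0 0

def nS (j : ℕ) : List T := dec ((node j).getD 1 0) ((node j).getD 2 0)

def ref (k : ℕ) (S : List T) (kj : ℕ) (Sj : List T) (c : ℕ) : Bool :=
  (List.range kj).all (fun i => decide (dg c i < k) &&
    (List.range i).all fun i' => dg c i' != dg c i) &&
  Sj.all fun t => S.any fun u => mem (dg c t.1) u && mem (dg c t.2.1) u && mem (dg c t.2.2) u

def just (i k : ℕ) (S : List T) (c : ℕ) : Bool :=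
  bif c % 2 == 0 then low k S (c / 2) 11
  else decide (c / 2 % 4096 < i) && ref k S (nk (c / 2 % 4096)) (nS (c / 2 % 4096)) (c / 2 / 4096)

def skip (S : List T) (p q r : ℕ) : Bool :=
  q == p || r == p || decide (14 ≤ r) || col S p q || col S p r || col S q r ||
    decide (3 ≤ deg S q) || decide (3 ≤ deg S r)

def pairs (k : ℕ) : List (ℕ × ℕ) :=
  (List.range (k + 1)).flatMap fun q =>
    ((List.range (k + 2)).filter fun r => decide (q < r) && (decide (r < k + 1) || q == k)).map
      fun r => (q, r)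

def loop (i k : ℕ) (S : List T) (p : ℕ) : List (ℕ × ℕ) → List ℕ → Bool
  | [], _ => true
  | x :: xs, cs =>
    bif skip S p x.1 x.2 then loop i k S p xs cs
    else just i (max k (x.2 + 1)) ((p, x.1, x.2) :: S) (cs.headD 0) && loop i k S p xs cs.tail

def chk (i : ℕ) : Bool :=
  wf (nk i) (nS i) && lin (nS i) &&
    bif (node i).getD 3 0 == 0 then
      decide ((node i).getD 4 0 < nk i) && decide (deg (nS i) ((node i).getD 4 0) < 3) &&
        loop i (nk i) (nS i) ((node i).getD 4 0) (pairs (nk i)) ((node i).drop 5)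
    else low (nk i) (nS i) ((node i).getD 4 0) (nk i - 3) &&
      just i (nk i + 1) (nS i) ((node i).getD 5 0)

theorem s0 : nk 0 = 7 ∧
    nS 0 = [(0, 1, 4), (0, 2, 5), (1, 2, 6), (2, 3, 4), (1, 3, 5), (0, 3, 6), (4, 5, 6)] := by
  decide +kernel

theorem s1 : nk 340 = 3 ∧ nS 340 = [(0, 1, 2)] := by decide +kernel

end Pool.Agent.H.MP_ac1762_co
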