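import Pool.Agent.H.MP_ac1762_co.Br
import Pool.Agent.H.MP_ac1762_co.C1
import Pool.Agent.H.MP_ac1762_co.C2
import Pool.Agent.H.MP_ac1762_co.C3
import Pool.Agent.H.MP_ac1762_co.C4

set_option autoImplicit false

namespace Pool.Agent.H.MP_ac1762_co
open Pool.Agent.Lib.helper1.Cfg

variable {n : ℕ} {V : Type} [AddCommGroup V] [Module ℝ V]
variable {I : Fin n → Fin n → Prop} {P : Fin n → V} {L : Fin n → AffineSubspace ℝ V}

theorem Ctx.fano (C : Ctx I P L) : Good I (nk 0) (nS 0) := by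
  rw [s0.1, s0.2]
  rintro φ ⟨hφ, E⟩
  obtain ⟨l1, o1⟩ := E (0, 1, 4) (by simp)
  obtain ⟨l2, o2⟩ := E (0, 2, 5) (by simp)
  obtain ⟨l3, o3⟩ := E (1, 2, 6) (by simp)
  obtain ⟨l4, o4⟩ := E (2, 3, 4) (by simp)
  obtain ⟨l5, o5⟩ := E (1, 3, 5) (by simp)
  obtain ⟨l6, o6⟩ := E (0, 3, 6) (by simp)
  obtain ⟨l7, o7⟩ := E (4, 5, 6) (by simp)
  have ne : ∀ i j, i < 7 → j < 7 → i ≠ j → P (φ i) ≠ P (φ j) := fun i j hi hj h e =>
    h (hφ hi hj (C.inj e))
  have m : ∀ {p l}, I p l → P p ∈ L l := fun h => (C.inc _ _).2 h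
  have h := quad (S := L l7) (C.dim l1) (C.dim l2) (C.dim l3) (C.dim l4) (C.dim l5) (C.dim l6)
    (m o1.1) (m o1.2.1) (m o1.2.2) (m o2.1) (m o2.2.1) (m o2.2.2) (m o3.1) (m o3.2.1) (m o3.2.2)
    (m o4.1) (m o4.2.1) (m o4.2.2) (m o5.1) (m o5.2.1) (m o5.2.2) (m o6.1) (m o6.2.1) (m o6.2.2)
    (ne 0 1 (by omega) (by omega) (by omega)) (ne 0 3 (by omega) (by omega) (by omega))
    (ne 0 4 (by omega) (by omega) (by omega)) (ne 0 5 (by omega) (by omega) (by omega))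
    (ne 1 5 (by omega) (by omega) (by omega))
    (fun h => by
      have := C.onl hφ (t := (0, 1, 4)) (by simp [WF]) o1 (i := 2) (by omega) ((C.inc _ _).1 h)
      simp [mem] at this)
    (fun h => by
      have := C.onl hφ (t := (1, 2, 6)) (by simp [WF]) o3 (i := 3) (by omega) ((C.inc _ _).1 h)
      simp [mem] at this)
    (m o7.1) (m o7.2.1) (m o7.2.2)
  have := C.onl hφ (t := (4, 5, 6)) (by simp [WF]) o7 (i := 0) (by omega) ((C.inc _ _).1 h)
  simp [mem] at this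

theorem Ctx.all_good (C : Ctx I P L) (B : Big P) (hn : n ≤ 14) (i : ℕ) :
    i ≤ 340 → Good I (nk i) (nS i) := by
  induction i using Nat.strong_induction_on with
  | _ i ih =>
    intro hi
    rcases i with _ | i
    · exact C.fano
    · refine C.chk_good B hn (fun j hj => ih j hj (by omega)) ?_
      by_cases h1 : i < 85
      · exact List.all_eq_true.1 c1 _ (List.mem_range'_1.2 (by omega))
      by_cases h2 : i < 170
      · exact List.all_eq_true.1 c2 _ (List.mem_range'_1.2 (by omega))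
      by_cases h3 : i < 255
      · exact List.all_eq_true.1 c3 _ (List.mem_range'_1.2 (by omega))
      · exact List.all_eq_true.1 c4 _ (List.mem_range'_1.2 (by omega))

theorem Ctx.not_big (C : Ctx I P L) (h0 : 0 < n) (hn : n ≤ 14) : ¬ Big P := by
  intro B
  have G := C.all_good B hn 340 le_rfl
  rw [s1.1, s1.2] at G
  obtain ⟨a, b, c, ab, ac, bc, e⟩ := Set.ncard_eq_three.1 (C.pl ⟨0, h0⟩)
  have ha : a ∈ {p | I p ⟨0, h0⟩} := by rw [e]; simp
  have hb : b ∈ {p | I p ⟨0, h0⟩} := by rw [e]; simp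
  have hc : c ∈ {p | I p ⟨0, h0⟩} := by rw [e]; simp
  refine G (fun i => if i = 0 then a else if i = 1 then b else c) ⟨fun i hi j hj h => ?_, ?_⟩
  · simp only [Set.mem_Iio] at hi hj
    interval_cases i <;> interval_cases j <;> simp_all
  · intro t ht
    rw [List.mem_singleton.1 ht]
    exact ⟨⟨0, h0⟩, ha, hb, hc⟩

theorem Ctx.compl (C : Ctx I P L) {W : AffineSubspace ℝ V} {x : Fin n} (hx : P x ∉ W) :
    {p | P p ∈ W}.ncard + 4 ≤ n := by
  have H : ∀ l, I x l → ∃ y, y ≠ x ∧ I y l ∧ P y ∉ W := by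
    intro l hl
    obtain ⟨y, z, yz, yx, zx, yl, zl⟩ := C.others hl
    by_cases hy : P y ∈ W
    · exact ⟨z, zx, zl, fun hz => hx (C.thd yz yl zl hl hy hz)⟩
    · exact ⟨y, yx, yl, hy⟩
  have : Nonempty (Fin n) := ⟨x⟩
  choose! f hf using H
  have h1 : {l | I x l}.ncard ≤ ({p | P p ∈ W}ᶜ \ {x}).ncard := by
    refine Set.ncard_le_ncard_of_injOn f (fun l hl => ⟨(hf l hl).2.2, (hf l hl).1⟩)
      (fun l hl l' hl' e => ?_) (Set.toFinite _)
    exact C.same (hf l hl).1 (hf l hl).2.1 hl (e ▸ (hf l' hl').2.1) hl'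
  have h2 := Set.ncard_sdiff_singleton_add_one (s := {p | P p ∈ W}ᶜ) (a := x) hx (Set.toFinite _)
  have h3 := Set.ncard_add_ncard_compl {p | P p ∈ W}
  rw [C.lp] at h1
  rw [Nat.card_eq_fintype_card, Fintype.card_fin] at h3
  omega

theorem Ctx.upper (C : Ctx I P L) (h0 : 0 < n) (hn : n ≤ 14) :
    Module.finrank ℝ (affineSpan ℝ (Set.range P)).direction ≤ 3 := by
  by_contra h
  refine C.not_big h0 hn fun W fd hW => ?_
  by_cases H : ∀ x, P x ∈ W
  · have h1 : affineSpan ℝ (Set.range P) ≤ W := by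
      rw [affineSpan_le]
      rintro _ ⟨i, rfl⟩
      exact H i
    exact absurd ((Submodule.finrank_mono (AffineSubspace.direction_le h1)).trans hW) h
  · push Not at H
    obtain ⟨x, hx⟩ := H
    exact C.compl hx

theorem Ctx.lower (C : Ctx I P L) (h0 : 0 < n) :
    2 ≤ Module.finrank ℝ (affineSpan ℝ (Set.range P)).direction := by
  by_contra h
  obtain ⟨l, l', _, ll, -, -, e⟩ := Set.ncard_eq_three.1 (C.lp ⟨0, h0⟩)
  have hl : l ∈ {l | I ⟨0, h0⟩ l} := by rw [e]; simp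
  have hl' : l' ∈ {l | I ⟨0, h0⟩ l} := by rw [e]; simp
  obtain ⟨a, -, -, ax, -, al, -⟩ := C.others hl
  obtain ⟨b, -, -, bx, -, bl, -⟩ := C.others hl'
  have m : ∀ p, P p ∈ affineSpan ℝ (Set.range P) := fun p => mem_affineSpan ℝ ⟨p, rfl⟩
  have hp : 0 < Module.finrank ℝ (affineSpan ℝ (Set.range P)).direction := by
    rw [Module.finrank_pos_iff_exists_ne_zero]
    refine ⟨⟨P a - P ⟨0, h0⟩, AffineSubspace.vsub_mem_direction (m _) (m _)⟩, fun e => ax ?_⟩
    exact C.inj (sub_eq_zero.1 (congrArg Subtype.val e))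
  have := third_mem (S := L l) (by omega) (C.inj.ne ax) (m a) (m _) (m b) ((C.inc _ _).2 al)
    ((C.inc _ _).2 hl)
  exact ll (C.same bx ((C.inc _ _).1 this) hl bl hl')

end Pool.Agent.H.MP_ac1762_co
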