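import Pool.Agent.H.MP_ac1762_co.Chk
import Pool.Agent.Lib.helper1.Quad

set_option autoImplicit false

namespace Pool.Agent.H.MP_ac1762_co
open Pool.Agent.Lib.helper1.Cfg

variable {n : ℕ} {V : Type} [AddCommGroup V] [Module ℝ V]

structure Ctx (I : Fin n → Fin n → Prop) (P : Fin n → V) (L : Fin n → AffineSubspace ℝ V) :
    Prop where
  pl : ∀ l, {p | I p l}.ncard = 3
  lp : ∀ p, {l | I p l}.ncard = 3
  un : ∀ p q, p ≠ q → {l | I p l ∧ I q l}.Subsingleton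
  inj : Function.Injective P
  dim : ∀ l, Module.finrank ℝ (L l).direction = 1
  inc : ∀ p l, P p ∈ L l ↔ I p l

def On (I : Fin n → Fin n → Prop) (φ : ℕ → Fin n) (t : T) (l : Fin n) : Prop :=
  I (φ t.1) l ∧ I (φ t.2.1) l ∧ I (φ t.2.2) l

def Emb (I : Fin n → Fin n → Prop) (φ : ℕ → Fin n) (k : ℕ) (S : List T) : Prop :=
  Set.InjOn φ (Set.Iio k) ∧ ∀ t ∈ S, ∃ l, On I φ t l

def Good (I : Fin n → Fin n → Prop) (k : ℕ) (S : List T) : Prop := ∀ φ, ¬ Emb I φ k S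

def WF (k : ℕ) (t : T) : Prop :=
  t.1 < k ∧ t.2.1 < k ∧ t.2.2 < k ∧ t.1 ≠ t.2.1 ∧ t.1 ≠ t.2.2 ∧ t.2.1 ≠ t.2.2

theorem wf_iff {k : ℕ} {S : List T} (h : wf k S = true) : ∀ t ∈ S, WF k t := by
  intro t ht
  have := List.all_eq_true.1 h t ht
  simp only [Bool.and_eq_true, decide_eq_true_eq, bne_iff_ne, ne_eq] at this
  exact ⟨this.1.1.1.1.1, this.1.1.1.1.2, this.1.1.1.2, this.1.1.2, this.1.2, this.2⟩

theorem mem_iff {i : ℕ} {t : T} : mem i t = true ↔ i = t.1 ∨ i = t.2.1 ∨ i = t.2.2 := by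
  simp [mem, or_assoc]

variable {I : Fin n → Fin n → Prop} {P : Fin n → V} {L : Fin n → AffineSubspace ℝ V}
  {φ : ℕ → Fin n} {k : ℕ} {S : List T}

theorem On.of_mem {t : T} {l : Fin n} (h : On I φ t l) {i : ℕ} (hi : mem i t = true) :
    I (φ i) l := by
  rcases mem_iff.1 hi with rfl | rfl | rfl
  exacts [h.1, h.2.1, h.2.2]

theorem WF.lt {t : T} (h : WF k t) {i : ℕ} (hi : mem i t = true) : i < k := by
  rcases mem_iff.1 hi with rfl | rfl | rfl
  exacts [h.1, h.2.1, h.2.2.1]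

theorem Ctx.same (C : Ctx I P L) {x y l l' : Fin n} (hxy : x ≠ y) (a : I x l) (b : I y l)
    (c : I x l') (d : I y l') : l = l' := C.un x y hxy ⟨a, b⟩ ⟨c, d⟩

theorem Ctx.onl (C : Ctx I P L) (hφ : Set.InjOn φ (Set.Iio k)) {t : T} (w : WF k t) {l : Fin n}
    (h : On I φ t l) {i : ℕ} (hi : i < k) (hl : I (φ i) l) : mem i t = true := by
  obtain ⟨a, b, c, ab, ac, bc⟩ := w
  have e : ({φ t.1, φ t.2.1, φ t.2.2} : Set (Fin n)) = {p | I p l} := by
    apply Set.eq_of_subset_of_ncard_le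
    · rintro x (rfl | rfl | rfl)
      exacts [h.1, h.2.1, h.2.2]
    · rw [C.pl l, Set.ncard_eq_three.2 ⟨_, _, _, fun e => ab (hφ a b e), fun e => ac (hφ a c e),
        fun e => bc (hφ b c e), rfl⟩]
    · exact Set.toFinite _
  have : φ i ∈ ({φ t.1, φ t.2.1, φ t.2.2} : Set (Fin n)) := e ▸ hl
  rw [mem_iff]
  rcases this with e | e | e
  exacts [Or.inl (hφ hi a e), Or.inr (Or.inl (hφ hi b e)), Or.inr (Or.inr (hφ hi c e))]

def Inv (P : Fin n → V) (φ : ℕ → Fin n) (W : AffineSubspace ℝ V) (m : ℕ) : Prop :=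
  ∀ i, m.testBit i = true → P (φ i) ∈ W

theorem inv_msk {W : AffineSubspace ℝ V} {a b c : ℕ} (ha : P (φ a) ∈ W) (hb : P (φ b) ∈ W)
    (hc : P (φ c) ∈ W) : Inv P φ W (msk a b c) := by
  intro i hi
  simp only [msk, Nat.testBit_or, Nat.testBit_two_pow, Bool.or_eq_true, decide_eq_true_eq] at hi
  rcases hi with (rfl | rfl) | rfl
  exacts [ha, hb, hc]

theorem inv_or {W : AffineSubspace ℝ V} {m m' : ℕ} (h : Inv P φ W m) (h' : Inv P φ W m') :
    Inv P φ W (m ||| m') := by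
  intro i hi
  simp only [Nat.testBit_or, Bool.or_eq_true] at hi
  exact hi.elim (h i) (h' i)

theorem Ctx.thd (C : Ctx I P L) {W : AffineSubspace ℝ V} {x y z l : Fin n} (hxy : x ≠ y)
    (hx : I x l) (hy : I y l) (hz : I z l) (wx : P x ∈ W) (wy : P y ∈ W) : P z ∈ W :=
  third_mem (C.dim l) (C.inj.ne hxy) ((C.inc _ _).2 hx) ((C.inc _ _).2 hy) ((C.inc _ _).2 hz) wx wy

theorem Ctx.inv_step (C : Ctx I P L) (hφ : Set.InjOn φ (Set.Iio k)) {W : AffineSubspace ℝ V}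
    {m : ℕ} (h : Inv P φ W m) {t : T} (w : WF k t) {l : Fin n} (o : On I φ t l) :
    Inv P φ W (step m t) := by
  obtain ⟨a, b, c, ab, ac, bc⟩ := w
  unfold step
  cases hb : (m.testBit t.1 && m.testBit t.2.1) || (m.testBit t.1 && m.testBit t.2.2) ||
    (m.testBit t.2.1 && m.testBit t.2.2)
  · exact h
  · simp only [Bool.or_eq_true, Bool.and_eq_true] at hb
    refine inv_or h ?_
    rcases hb with (⟨u, v⟩ | ⟨u, v⟩) | ⟨u, v⟩
    · exact inv_msk (h _ u) (h _ v)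
        (C.thd (fun e => ab (hφ a b e)) o.1 o.2.1 o.2.2 (h _ u) (h _ v))
    · exact inv_msk (h _ u) (C.thd (fun e => ac (hφ a c e)) o.1 o.2.2 o.2.1 (h _ u) (h _ v))
        (h _ v)
    · exact inv_msk (C.thd (fun e => bc (hφ b c e)) o.2.1 o.2.2 o.1 (h _ u) (h _ v))
        (h _ u) (h _ v)

theorem Ctx.inv_fold (C : Ctx I P L) (hφ : Set.InjOn φ (Set.Iio k)) {W : AffineSubspace ℝ V} :
    ∀ (S : List T), (∀ t ∈ S, WF k t) → (∀ t ∈ S, ∃ l, On I φ t l) → ∀ m, Inv P φ W m →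
      Inv P φ W (S.foldl step m)
  | [], _, _, _, h => h
  | t :: S, w, o, m, h => by
    obtain ⟨l, hl⟩ := o t (by simp)
    exact C.inv_fold hφ S (fun u hu => w u (by simp [hu])) (fun u hu => o u (by simp [hu])) _
      (C.inv_step hφ h (w t (by simp)) hl)

theorem Ctx.inv_clo (C : Ctx I P L) (E : Emb I φ k S) (w : ∀ t ∈ S, WF k t)
    {W : AffineSubspace ℝ V} : ∀ j m, Inv P φ W m → Inv P φ W (clo S j m)
  | 0, _, h => h
  | j + 1, _, h => C.inv_clo E w j _ (C.inv_fold E.1 S w E.2 _ h)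

theorem cnt_le (hφ : Set.InjOn φ (Set.Iio k)) {W : AffineSubspace ℝ V} {m : ℕ}
    (h : Inv P φ W m) : cnt k m ≤ {p | P p ∈ W}.ncard := by
  have e : cnt k m = ((Finset.range k).filter fun i => m.testBit i = true).card := by
    rw [cnt, List.countP_eq_length_filter, ← List.toFinset_card_of_nodup
      (List.nodup_range.filter _)]
    congr 1
    ext i
    simp
  rw [e, ← Set.ncard_coe_finset]
  refine Set.ncard_le_ncard_of_injOn φ (fun i hi => ?_) (fun i hi j hj e => ?_) (Set.toFinite _)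
  · simp only [Finset.coe_filter, Set.mem_ofPred_eq] at hi
    exact h i hi.2
  · simp only [Finset.coe_filter, Set.mem_ofPred_eq, Finset.mem_range] at hi hj
    exact hφ hi.1 hj.1 e

theorem plane (a b c : V) : ∃ W : AffineSubspace ℝ V, Module.finrank ℝ W.direction ≤ 2 ∧
    FiniteDimensional ℝ W.direction ∧ a ∈ W ∧ b ∈ W ∧ c ∈ W := by
  refine ⟨affineSpan ℝ (Set.range ![a, b, c]), ?_, inferInstance,
    mem_affineSpan ℝ ⟨0, rfl⟩, mem_affineSpan ℝ ⟨1, rfl⟩, mem_affineSpan ℝ ⟨2, rfl⟩⟩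
  rw [direction_affineSpan]
  exact finrank_vectorSpan_range_le ℝ _ (by simp)

theorem two {W1 W2 : AffineSubspace ℝ V} [FiniteDimensional ℝ W1.direction]
    [FiniteDimensional ℝ W2.direction] (h1 : Module.finrank ℝ W1.direction ≤ 2)
    (h2 : Module.finrank ℝ W2.direction ≤ 2) {u v : V} (huv : u ≠ v) (u1 : u ∈ W1) (v1 : v ∈ W1)
    (u2 : u ∈ W2) (v2 : v ∈ W2) : Module.finrank ℝ (W1 ⊔ W2).direction ≤ 3 ∧
      FiniteDimensional ℝ (W1 ⊔ W2).direction := by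
  have e : (W1 ⊔ W2).direction = W1.direction ⊔ W2.direction := by
    rw [AffineSubspace.direction_sup u1 u2]
    simp
  rw [e]
  refine ⟨?_, inferInstance⟩
  have h := Submodule.finrank_sup_add_finrank_inf_eq W1.direction W2.direction
  have hp : 0 < Module.finrank ℝ (W1.direction ⊓ W2.direction : Submodule ℝ V) := by
    rw [Module.finrank_pos_iff_exists_ne_zero]
    refine ⟨⟨v - u, AffineSubspace.vsub_mem_direction v1 u1,
      AffineSubspace.vsub_mem_direction v2 u2⟩, fun e => huv ?_⟩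
    exact (sub_eq_zero.1 (congrArg Subtype.val e)).symm
  omega

def Big (P : Fin n → V) : Prop :=
  ∀ W : AffineSubspace ℝ V, FiniteDimensional ℝ W.direction → Module.finrank ℝ W.direction ≤ 3 →
    {p | P p ∈ W}.ncard + 4 ≤ n

theorem Ctx.low_le (C : Ctx I P L) (B : Big P) (E : Emb I φ k S) (w : ∀ t ∈ S, WF k t)
    {c need : ℕ} (h : low k S c need = true) : need + 4 ≤ n := by
  simp only [low, Bool.and_eq_true, decide_eq_true_eq, bne_iff_ne, ne_eq] at h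
  obtain ⟨⟨⟨⟨⟨⟨⟨hu, hv⟩, huv⟩, u1⟩, v1⟩, u2⟩, v2⟩, hc⟩ := h
  obtain ⟨W1, d1, f1, a1, b1, c1⟩ := plane (P (φ (dg c 0))) (P (φ (dg c 1))) (P (φ (dg c 2)))
  obtain ⟨W2, d2, f2, a2, b2, c2⟩ := plane (P (φ (dg c 3))) (P (φ (dg c 4))) (P (φ (dg c 5)))
  have i1 := C.inv_clo E w (dg c 8) _ (inv_msk a1 b1 c1)
  have i2 := C.inv_clo E w (dg c 8) _ (inv_msk a2 b2 c2)
  obtain ⟨d, f⟩ := two d1 d2 (C.inj.ne fun e => huv (E.1 hu hv e)) (i1 _ u1) (i1 _ v1) (i2 _ u2)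
    (i2 _ v2)
  have i3 : Inv P φ (W1 ⊔ W2) _ := inv_or (fun i hi => (le_sup_left : W1 ≤ W1 ⊔ W2) (i1 i hi))
    (fun i hi => (le_sup_right : W2 ≤ W1 ⊔ W2) (i2 i hi))
  have := cnt_le E.1 (C.inv_clo E w (dg c 9) _ i3)
  have := B _ f d
  omega

theorem ref_emb (E : Emb I φ k S) {kj c : ℕ} {Sj : List T} (h : ref k S kj Sj c = true) :
    Emb I (fun i => φ (dg c i)) kj Sj := by
  simp only [ref, Bool.and_eq_true, List.all_eq_true, List.mem_range, decide_eq_true_eq,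
    bne_iff_ne, ne_eq, List.any_eq_true] at h
  refine ⟨fun i hi j hj e => ?_, fun t ht => ?_⟩
  · have e' := E.1 (h.1 i hi).1 (h.1 j hj).1 e
    rcases lt_trichotomy i j with hl | hl | hl
    · exact absurd e' ((h.1 j hj).2 i hl)
    · exact hl
    · exact absurd e'.symm ((h.1 i hi).2 j hl)
  · obtain ⟨u, hu, ⟨a, b⟩, d⟩ := h.2 t ht
    obtain ⟨l, hl⟩ := E.2 u hu
    exact ⟨l, hl.of_mem a, hl.of_mem b, hl.of_mem d⟩

theorem Ctx.just_good (C : Ctx I P L) (B : Big P) (hn : n ≤ 14) {i c : ℕ}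
    (ih : ∀ j < i, Good I (nk j) (nS j)) (w : ∀ t ∈ S, WF k t) (h : just i k S c = true) :
    Good I k S := by
  intro φ E
  unfold just at h
  cases hb : c % 2 == 0
  · rw [hb] at h
    simp only [cond_false, Bool.and_eq_true, decide_eq_true_eq] at h
    exact ih _ h.1 _ (ref_emb E h.2)
  · rw [hb] at h
    have := C.low_le B E w h
    omega

end Pool.Agent.H.MP_ac1762_co
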